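import Pool.Agent.Helper75.PX.Stmts3
import Pool.Agent.Helper73.PX.T5

/-! # PX: the row T6 -/

set_option autoImplicit false

universe u

open Module TensorProduct Cardinal Algebra

namespace Pool.Agent.Helper75.PX

theorem st_T6 : ST_T6.{u} := by
  intro F K _ _ _ S s n h
  have h1 := T5_trdeg (IntermediateField.adjoin F S) K (n := 1) (fun _ => s)
  have h2 := trdeg_add_eq F (IntermediateField.adjoin F S)
    (A := IntermediateField.adjoin (IntermediateField.adjoin F S)
      (Set.range (fun _ : Fin 1 => s)))
  have h3 : Set.range (fun _ : Fin 1 => s) = {s} := Set.range_const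
  rw [← IntermediateField.adjoin_adjoin_left]
  change Algebra.trdeg F (IntermediateField.adjoin (IntermediateField.adjoin F S) {s}) ≤ _
  rw [← h3, ← h2, Nat.cast_add]
  exact add_le_add h h1

end Pool.Agent.Helper75.PX
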